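import Pool.Agent.helper75.PSA.SLM

set_option autoImplicit false

open Polynomial Finset

noncomputable section

namespace Pool.Agent.PSA

theorem IND_map (hQQC : QQC_stmt) {k : ℕ} {P : ℤ[X]} {Λ : ℝ} {w : Fin k → Circle} (hF : Fac P Λ w) :
    P.map (algebraMap ℤ ℂ) = (X - C (Λ : ℂ)) * (X - C ((Λ⁻¹ : ℝ) : ℂ)) *
      ∏ j, ((X - C (w j : ℂ)) * (X - C ((w j : ℂ)⁻¹))) := by
  have h1 : P.map (algebraMap ℤ ℂ) = (P.map (Int.castRingHom ℝ)).map (algebraMap ℝ ℂ) := by
    rw [Polynomial.map_map]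
    congr 1
  unfold Fac at hF
  rw [h1, hF, Polynomial.map_mul, hQQC, Polynomial.map_mul, Polynomial.map_sub,
    Polynomial.map_sub, Polynomial.map_X, Polynomial.map_C, Polynomial.map_C]
  rfl

theorem IND_ne (hQQC : QQC_stmt) {k : ℕ} {P : ℤ[X]} {Λ : ℝ} {w : Fin k → Circle} (hF : Fac P Λ w)
    (hsq : Squarefree (P.map (algebraMap ℤ ℂ))) {i j : Fin k} (hij : i ≠ j) :
    (w i : ℂ) ≠ w j ∧ (w i : ℂ) ≠ (w j : ℂ)⁻¹ := by
  have hdiv : ((X - C (w i : ℂ)) * (X - C ((w i : ℂ)⁻¹))) *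
      ((X - C (w j : ℂ)) * (X - C ((w j : ℂ)⁻¹))) ∣ P.map (algebraMap ℤ ℂ) := by
    rw [IND_map hQQC hF]
    apply Dvd.dvd.mul_left
    rw [← Finset.prod_pair (f := fun j => (X - C (w j : ℂ)) * (X - C ((w j : ℂ)⁻¹))) hij]
    exact Finset.prod_dvd_prod_of_subset _ _ _ (Finset.subset_univ _)
  have key : ∀ a : ℂ, (X - C a) * (X - C a) ∣ P.map (algebraMap ℤ ℂ) → False :=
    fun a ha => Polynomial.not_isUnit_X_sub_C a (hsq _ ha)
  constructor
  · intro h
    apply key (w i : ℂ)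
    refine Dvd.dvd.trans ?_ hdiv
    rw [← h]
    exact ⟨(X - C ((w i : ℂ)⁻¹)) * (X - C ((w i : ℂ)⁻¹)), by ring⟩
  · intro h
    apply key (w i : ℂ)
    refine Dvd.dvd.trans ?_ hdiv
    rw [← h]
    exact ⟨(X - C ((w i : ℂ)⁻¹)) * (X - C (w j : ℂ)), by ring⟩

theorem IND (hQQC : QQC_stmt) : IND_stmt := by
  intro β k w hS hF n hn
  obtain ⟨hint, hβ, -, -⟩ := hS
  have hβ0 : 0 < β := by linarith
  have hPQ : minpoly ℚ β = (minpoly ℤ β).map (algebraMap ℤ ℚ) :=
    minpoly.isIntegrallyClosed_eq_field_fractions' ℚ hint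
  have hirr : Irreducible ((minpoly ℤ β).map (algebraMap ℤ ℚ)) := by
    rw [← hPQ]; exact minpoly.irreducible hint.tower_top
  have hmon : ((minpoly ℤ β).map (algebraMap ℤ ℚ)).Monic := (minpoly.monic hint).map _
  have hsq : Squarefree ((minpoly ℤ β).map (algebraMap ℤ ℂ)) := by
    have h1 : ((minpoly ℤ β).map (algebraMap ℤ ℚ)).map (algebraMap ℚ ℂ) =
        (minpoly ℤ β).map (algebraMap ℤ ℂ) := by
      rw [Polynomial.map_map]; congr 1
    rw [← h1]
    exact (hirr.separable.map).squarefree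
  have hroots := SLM_roots hQQC hF
  have hmem : ∀ z : ℂ, aeval z (minpoly ℤ β) = 0 → z ∈ algebraicClosure ℚ ℂ := by
    intro z hz
    rw [mem_algebraicClosure_iff]
    refine ⟨(minpoly ℤ β).map (algebraMap ℤ ℚ), hmon.ne_zero, ?_⟩
    rw [aeval_map_algebraMap]; exact hz
  have hmin : ∀ x : algebraicClosure ℚ ℂ, aeval (x : ℂ) (minpoly ℤ β) = 0 →
      minpoly ℚ x = (minpoly ℤ β).map (algebraMap ℤ ℚ) := by
    intro x hx
    symm
    apply minpoly.eq_of_irreducible_of_monic hirr _ hmon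
    have h2 : algebraMap (algebraicClosure ℚ ℂ) ℂ
        (aeval x ((minpoly ℤ β).map (algebraMap ℤ ℚ))) = 0 := by
      rw [← aeval_algebraMap_apply, aeval_map_algebraMap]
      exact hx
    exact (algebraMap (algebraicClosure ℚ ℂ) ℂ).injective (by rw [h2, map_zero])
  have hback : ∀ x : algebraicClosure ℚ ℂ, minpoly ℚ x = (minpoly ℤ β).map (algebraMap ℤ ℚ) →
      aeval (x : ℂ) (minpoly ℤ β) = 0 := by
    intro x hx
    have h1 := minpoly.aeval ℚ x
    rw [hx] at h1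
    have h2 := congrArg (algebraMap (algebraicClosure ℚ ℂ) ℂ) h1
    rw [← aeval_algebraMap_apply, aeval_map_algebraMap, map_zero] at h2
    exact h2
  have hwr : ∀ j, aeval (w j : ℂ) (minpoly ℤ β) = 0 := fun j =>
    (hroots _).2 (Or.inr (Or.inr ⟨j, Or.inl rfl⟩))
  have hbr : aeval (β : ℂ) (minpoly ℤ β) = 0 := (hroots _).2 (Or.inl rfl)
  set x : Fin k → algebraicClosure ℚ ℂ := fun j => ⟨(w j : ℂ), hmem _ (hwr j)⟩ with hx
  set b : algebraicClosure ℚ ℂ := ⟨(β : ℂ), hmem _ hbr⟩ with hb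
  have hrel : ∏ j, x j ^ n j = 1 := by
    have h1 : (∏ j, (w j : ℂ) ^ n j) = 1 := by
      have := congrArg Circle.coeHom hn
      rw [map_prod, map_one] at this
      rw [← this]
      refine Finset.prod_congr rfl fun j _ => ?_
      exact (Circle.coe_zpow _ _).symm
    apply (algebraMap (algebraicClosure ℚ ℂ) ℂ).injective
    rw [map_prod, map_one, ← h1]
    refine Finset.prod_congr rfl fun j _ => ?_
    rw [map_zpow₀]
    rfl
  funext j₀
  have hac : IsAlgClosure ℚ (algebraicClosure ℚ ℂ) := algebraicClosure.isAlgClosure ℚ ℂ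
  have hnormal : Normal ℚ (algebraicClosure ℚ ℂ) := IsAlgClosure.normal ℚ _
  obtain ⟨σ, hσ⟩ : ∃ σ : Gal(algebraicClosure ℚ ℂ/ℚ), σ (x j₀) = b := by
    apply (isConjRoot_iff_exists_algEquiv).1
    change minpoly ℚ b = minpoly ℚ (x j₀)
    rw [hmin b hbr, hmin (x j₀) (hwr j₀)]
  have hnorm : ∀ j, j ≠ j₀ → ‖((σ (x j) : algebraicClosure ℚ ℂ) : ℂ)‖ = 1 := by
    intro j hj
    obtain ⟨n1, n2⟩ := IND_ne hQQC hF hsq hj
    have h1 : aeval ((σ (x j) : algebraicClosure ℚ ℂ) : ℂ) (minpoly ℤ β) = 0 := by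
      apply hback
      have := minpoly.algEquiv_eq σ (x j)
      rw [this]
      exact hmin (x j) (hwr j)
    rw [hroots] at h1
    rcases h1 with h | h | ⟨i, h | h⟩
    · exfalso
      have h2 : σ (x j) = σ (x j₀) := by
        rw [hσ]
        exact Subtype.ext h
      have h3 := σ.injective h2
      exact n1 (congrArg (fun y : algebraicClosure ℚ ℂ => (y : ℂ)) h3)
    · exfalso
      have h2 : σ (x j) = σ ((x j₀)⁻¹) := by
        rw [map_inv₀, hσ]
        apply Subtype.ext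
        rw [h]
        push_cast
        rfl
      have h3 := σ.injective h2
      have h4 := congrArg (fun y : algebraicClosure ℚ ℂ => (y : ℂ)) h3
      exact n2 h4
    · rw [h, Circle.norm_coe]
    · rw [h, norm_inv, Circle.norm_coe, inv_one]
  have h5 : ∏ j, ((σ (x j) : algebraicClosure ℚ ℂ) : ℂ) ^ n j = 1 := by
    have h6 : σ (∏ j, x j ^ n j) = 1 := by rw [hrel, map_one]
    rw [map_prod] at h6
    have h7 := congrArg (algebraMap (algebraicClosure ℚ ℂ) ℂ) h6
    rw [map_prod, map_one] at h7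
    rw [← h7]
    refine Finset.prod_congr rfl fun j _ => ?_
    rw [map_zpow₀, map_zpow₀]
    rfl
  have h8 := congrArg norm h5
  rw [norm_prod, norm_one, Finset.prod_eq_single j₀] at h8
  · rw [norm_zpow, hσ] at h8
    have h9 : ‖((b : algebraicClosure ℚ ℂ) : ℂ)‖ = β := by
      rw [hb]
      simp [abs_of_pos hβ0]
    rw [h9] at h8
    have h10 : β ^ n j₀ = β ^ (0 : ℤ) := by rw [h8, zpow_zero]
    exact zpow_right_injective₀ hβ0 hβ.ne' h10
  · intro j _ hj
    rw [norm_zpow, hnorm j hj, one_zpow]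
  · intro h
    exact absurd (Finset.mem_univ _) h

end Pool.Agent.PSA
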